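import Pool.Agent.MP_96f5a9_co.h59a.Spec
import Pool.Agent.MP_96f5a9_co.h93.Soft

-- ======== part 0: formerly Pool.Agent.MP_96f5a9_co.h59.Core
section MrgPart0

/-!
Row CORE: the accounting identity with a set of good elements.
-/

set_option autoImplicit false

namespace Pool.Agent.MP_96f5a9_co.H59

open Finset H51 H16

theorem core : CoreStmt := by
  intro ι _ _ g T m F D0 K n gs G ⟨hm, _, hT, hcard, hinj, hM, _⟩ hn hD hK hs hgs hG hgood
  obtain ⟨k, rfl⟩ : ∃ k, m = k + 1 := ⟨m - 1, by omega⟩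
  obtain ⟨K, rfl⟩ : ∃ k, K = k + 1 := ⟨K - 1, by omega⟩
  set p := Fintype.card ι with hp
  let r : (ι → ℕ) → ℕ := fun z => F + (k + 1) - wt g z
  let a : (ι → ℕ) → ℕ := fun z => r z / (k + 1)
  let l : (ι → ℕ) → ℕ := fun z => r z % (k + 1)
  let b : (ι → ℕ) → ℕ := fun z => (r z + (F + 1)) / (k + 1)
  let l' : (ι → ℕ) → ℕ := fun z => (r z + (F + 1)) % (k + 1)
  let Q : (ι → ℕ) → ℕ := fun z => ∑ i, z i * a (z - ee i)
  let Λ : (ι → ℕ) → ℕ := fun z => ∑ i, z i * l (z - ee i)
  let κ : ℕ → ℕ := fun D => if D < D0 then D - 2 else K + 1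
  let R : (ι → ℕ) → ℕ := fun z => ∑ j, (l z + gs j) / (k + 1)
  let U := T.filter fun y => n ≤ dg y + 1 ∧ wt g y ≤ F
  show ∑ j, gs j + ∑ y ∈ U, (dg y + p) ≤ (p + 1) * ∑ x ∈ T, a x +
    ∑ z ∈ T.filter (fun z => n ≤ dg z), dg z + ∑ z ∈ T \ G, (κ (dg z) + n)
  have hal : ∀ z, (k + 1) * a z + l z = r z := fun z => Nat.div_add_mod _ _
  have hbl : ∀ z, (k + 1) * b z + l' z = r z + (F + 1) := fun z => Nat.div_add_mod _ _
  have hl : ∀ z, l z ≤ k := fun z => Nat.le_of_lt_succ (Nat.mod_lt _ hm)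
  have hr : ∀ z ∈ T, r z + wt g z = F + (k + 1) := fun z hz => Nat.sub_add_cancel (hM z hz)
  have hdown : ∀ z ∈ T, ∀ i, z - ee i ∈ T := fun z hz i => hT z hz _ fun j => Nat.sub_le _ _
  have hres : ∀ c, ∑ x ∈ T, (r x + c) % (k + 1) = ∑ j ∈ range (k + 1), j := fun c =>
    sum_mod_eq T _ hm hcard _ fun x hx y hy h => hinj x hx y hy <| by
      have h4 : (r x + c) + wt g x ≡ (r y + c) + wt g y [MOD k + 1] := by
        rw [add_right_comm, hr x hx, add_right_comm (r y), hr y hy]
      exact Nat.ModEq.add_left_cancel h h4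
  have S1 : ∑ z ∈ T, R z = ∑ j, gs j := by
    rw [sum_comm]
    refine sum_congr rfl fun j _ => ?_
    have e1 : ∑ z ∈ T, (l z + gs j) % (k + 1) = ∑ z ∈ T, l z := by
      simp only [l, Nat.mod_add_mod]
      exact (hres (gs j)).trans (hres 0).symm
    have e2 : ∑ z ∈ T, ((k + 1) * ((l z + gs j) / (k + 1)) + (l z + gs j) % (k + 1)) =
        ∑ z ∈ T, (l z + gs j) := sum_congr rfl fun z _ => Nat.div_add_mod _ _
    rw [sum_add_distrib, sum_add_distrib, e1, ← mul_sum, sum_const, hcard, smul_eq_mul] at e2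
    exact Nat.eq_of_mul_eq_mul_left hm (by omega)
  have hI : ∀ z ∈ T, (k + 1) * (b z + dg z * a z) + k + l' z + dg z * l z =
      (k + 1) * (2 * a z + Q z) + 2 * l z + Λ z := fun z hz => by
    have e : (k + 1) * Q z + Λ z = dg z * r z + wt g z := by
      simp only [Q, Λ, dg, wt, mul_sum, sum_mul, ← sum_add_distrib]
      refine sum_congr rfl fun i _ => ?_
      rcases Nat.eq_zero_or_pos (z i) with c | c
      · simp [c]
      · have e1 := hr z hz
        have e2 := hr _ (hdown z hz i)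
        have e3 := wt_ee g (z - ee i) i
        rw [sub_add_ee c] at e3
        rw [mul_left_comm, ← mul_add, hal, ← mul_add]
        congr 1
        omega
    have e1 := hr z hz
    have e2 := hal z
    have e3 := hbl z
    rw [← e2] at e
    nlinarith
  have hΛ : ∀ z, Λ z ≤ dg z * k := fun z => by
    rw [dg, sum_mul]
    exact sum_le_sum fun i _ => Nat.mul_le_mul_left _ (hl _)
  have P1 : ∀ z ∈ T, b z + dg z * a z ≤ 2 * a z + Q z + (dg z - 2) := fun z hz => by
    have e1 := hI z hz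
    have e2 := hΛ z
    have e3 := hl z
    refine Nat.le_of_lt_succ (Nat.lt_of_mul_lt_mul_left (a := k + 1) ?_)
    rw [Nat.succ_eq_add_one, add_assoc _ _ 1, mul_add (k + 1) (2 * a z + Q z)]
    generalize (k + 1) * (b z + dg z * a z) = X at *
    generalize (k + 1) * (2 * a z + Q z) = Y at *
    rcases hd : dg z with _ | _ | d
    · rw [hd] at e1 e2
      omega
    · rw [hd] at e1 e2
      omega
    · rw [hd] at e1 e2
      rw [show d + 1 + 1 - 2 = d by omega]
      nlinarith [Nat.zero_le (d * l z)]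
  let H := T.filter fun z => ¬ dg z < D0
  have P2 : ∑ z ∈ H, (b z + dg z * a z) ≤ ∑ z ∈ H, (2 * a z + Q z + (K + 1)) := by
    have e1 : ∀ z ∈ H, Λ z ≤ K * k + if D0 < dg z then ∑ i, (z i - 1) * l (z - ee i) else 0 := by
      intro z hz
      obtain ⟨z1, z2⟩ := mem_filter.1 hz
      split_ifs with c
      · calc Λ z ≤ ∑ i, ((if 0 < z i then k else 0) + (z i - 1) * l (z - ee i)) := by
              refine sum_le_sum fun i _ => ?_
              have := hl (z - ee i)
              rcases hi : z i with _ | j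
              · simp
              · rw [if_pos (by omega), Nat.add_sub_cancel, add_mul]
                omega
          _ ≤ _ := by
              rw [sum_add_distrib, ← sum_filter, sum_const, smul_eq_mul]
              exact Nat.add_le_add_right
                (Nat.mul_le_mul_right _ (Nat.le_of_lt_succ (hs z z1))) _
      · exact (hΛ z).trans (Nat.mul_le_mul_right _ (by omega))
    have e2 : ∑ z ∈ H, Λ z ≤ ∑ z ∈ H, (K * k + dg z * l z) := by
      refine (sum_le_sum e1).trans ?_
      rw [sum_add_distrib, sum_add_distrib, ← sum_filter, sum_comm]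
      refine Nat.add_le_add_left ?_ _
      simp only [dg, sum_mul]
      rw [sum_comm (s := H)]
      refine sum_le_sum fun i _ => shift_le H _ i (· - 1) rfl l fun z hz hi => ?_
      obtain ⟨z1, z2⟩ := mem_filter.1 hz
      have := dg_sub hi
      exact mem_filter.2 ⟨hdown z (mem_filter.1 z1).1 i, by unfold dg at this ⊢; omega⟩
    have e3 : ∑ z ∈ H, ((k + 1) * (b z + dg z * a z) + (K * k + dg z * l z)) ≤
        ∑ z ∈ H, ((k + 1) * (2 * a z + Q z + (K + 1)) + Λ z) := sum_le_sum fun z hz => by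
      have e1 := hI z (mem_filter.1 hz).1
      have e2 := hl z
      rw [mul_add (k + 1) (2 * a z + Q z)]
      nlinarith
    rw [sum_add_distrib, sum_add_distrib (g := Λ), ← mul_sum, ← mul_sum] at e3
    exact Nat.le_of_mul_le_mul_left (by omega) hm
  have S2 : ∑ z ∈ T \ G, (b z + dg z * a z) ≤ ∑ z ∈ T \ G, (2 * a z + Q z + κ (dg z)) := by
    have e : (T \ G).filter (fun z => ¬ dg z < D0) = H := by
      ext z
      simp only [H, mem_filter, mem_sdiff]
      exact ⟨fun h => ⟨h.1.1, h.2⟩, fun h => ⟨⟨h.1, fun c => h.2 ((hgood z c).2.1 ▸ hD)⟩, h.2⟩⟩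
    rw [← sum_filter_add_sum_filter_not (T \ G) fun z => dg z < D0,
      ← sum_filter_add_sum_filter_not (T \ G) fun z => dg z < D0, e]
    refine Nat.add_le_add (sum_le_sum fun z hz => ?_) (P2.trans (sum_le_sum fun z hz => ?_))
    · simp only [κ, if_pos (mem_filter.1 hz).2]
      exact P1 z (mem_sdiff.1 (mem_filter.1 hz).1).1
    · simp only [κ, if_neg (mem_filter.1 hz).2, le_refl]
  have G1 : ∑ z ∈ G, (R z + dg z * a z) ≤ ∑ z ∈ G, Q z := sum_le_sum fun z hz => by
    obtain ⟨h1, -, h3⟩ := hgood z hz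
    have e1 := hr z (hG hz)
    have e2 : r z < k + 1 := by omega
    have e3 : a z = 0 := Nat.div_eq_of_lt e2
    have e4 : l z = r z := Nat.mod_eq_of_lt e2
    rw [e3, mul_zero, add_zero]
    simp only [R, e4]
    refine h3.trans_eq (sum_congr rfl fun i _ => ?_)
    rcases Nat.eq_zero_or_pos (z i) with c | c
    · simp [c]
    · have e5 := hr _ (hdown z (hG hz) i)
      have e6 := wt_ee g (z - ee i) i
      rw [sub_add_ee c] at e6
      have e7 : r z + g i = r (z - ee i) := by omega
      exact congrArg (fun t => z i * (t / (k + 1))) e7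
  have G2 : ∑ z ∈ T \ G, (R z + a z) ≤ ∑ z ∈ T \ G, (b z + n) := sum_le_sum fun z _ => by
    have e1 : (k + 1) * R z ≤ n * l z + ∑ j, gs j := by
      rw [mul_sum]
      refine (sum_le_sum fun j _ => Nat.mul_div_le (l z + gs j) (k + 1)).trans_eq ?_
      simp [sum_add_distrib]
    have e2 := hal z
    have e3 := hbl z
    have e5 : l' z ≤ k := Nat.le_of_lt_succ (Nat.mod_lt _ hm)
    obtain ⟨n, rfl⟩ : ∃ d, n = d + 1 := ⟨n - 1, by omega⟩
    have e4 := Nat.mul_le_mul_left n (hl z)
    refine Nat.le_of_lt_succ (Nat.lt_of_mul_lt_mul_left (a := k + 1) ?_)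
    rw [Nat.succ_eq_add_one]
    nlinarith
  have hU : U ⊆ T := filter_subset _ _
  let φ : (ι → ℕ) → ℕ := fun y => a y - if y ∈ U then 1 else 0
  have S3 : ∑ z ∈ T, Q z + ∑ y ∈ U, (dg y + p) ≤
      ∑ z ∈ T, (dg z + p) * a z + ∑ z ∈ T, if n ≤ dg z then dg z else 0 := by
    have e1 : ∀ z ∈ T, Q z ≤ ∑ i, z i * φ (z - ee i) + if n ≤ dg z then dg z else 0 := by
      intro z _
      calc Q z ≤ ∑ i, (z i * φ (z - ee i) + if n ≤ dg z then z i else 0) := by
            refine sum_le_sum fun i _ => ?_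
            rcases Nat.eq_zero_or_pos (z i) with c | c
            · simp [c]
            simp only [φ]
            by_cases c' : z - ee i ∈ U
            · have := (mem_filter.1 c').2.1
              have := dg_sub c
              rw [if_pos c', if_pos (by omega), ← Nat.mul_succ]
              exact Nat.mul_le_mul_left _ (by omega)
            · rw [if_neg c']
              exact Nat.le_add_right _ _
        _ = _ := by
            rw [sum_add_distrib]
            split_ifs
            · rfl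
            · simp
    have e2 : ∑ z ∈ T, ∑ i, z i * φ (z - ee i) ≤ ∑ y ∈ T, (dg y + p) * φ y := by
      rw [sum_comm]
      refine (sum_le_sum fun i _ => shift_le T T i id rfl φ fun z hz _ => hdown z hz i).trans ?_
      rw [sum_comm]
      refine sum_le_sum fun y _ => le_of_eq ?_
      rw [← sum_mul, hp]
      simp [dg, sum_add_distrib]
    have e3 : ∑ y ∈ T, (dg y + p) * φ y + ∑ y ∈ U, (dg y + p) = ∑ z ∈ T, (dg z + p) * a z := by
      rw [← inter_eq_right.2 hU, ← sum_ite_mem, ← sum_add_distrib]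
      refine sum_congr rfl fun y hy => ?_
      simp only [φ]
      split_ifs with c
      · have e4 := (mem_filter.1 c).2.2
        have e5 := hr _ hy
        have : 1 ≤ a y := (Nat.le_div_iff_mul_le hm).2 (by omega)
        rw [← Nat.mul_succ, Nat.succ_eq_add_one, Nat.sub_add_cancel this]
      · rfl
    have e4 := sum_le_sum e1
    rw [sum_add_distrib] at e4
    omega
  have d1 := sum_sdiff hG (f := R)
  have d2 := sum_sdiff hG (f := a)
  have d3 := sum_sdiff hG (f := Q)
  have d4 := sum_sdiff hG (f := fun z => dg z * a z)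
  rw [sum_filter (fun z => n ≤ dg z)]
  simp only [sum_add_distrib, add_mul, ← mul_sum] at S2 S3 G1 G2 ⊢
  omega

end Pool.Agent.MP_96f5a9_co.H59

end MrgPart0

-- ======== part 1: formerly Pool.Agent.MP_96f5a9_co.h59.Dead
section MrgPart1

/-!
Row DEAD: a level of degree at least three that fills the residues has many dead edges.
-/

set_option autoImplicit false

namespace Pool.Agent.MP_96f5a9_co.H59

open Finset H51 H16

namespace Dead

variable {ι : Type} [Fintype ι] [DecidableEq ι]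

/-- The number of dead edges. -/
def dd (Y Z : Finset (ι → ℕ)) : ℕ := ∑ i, (Y.filter fun y => y + ee i ∉ Z).card

/-- The degree in the variables of `B`. -/
def bt (B : Finset ι) (z : ι → ℕ) : ℕ := ∑ i ∈ B, z i

omit [Fintype ι] in
lemma bt_ee (B : Finset ι) (y : ι → ℕ) (i : ι) :
    bt B (y + ee i) = bt B y + if i ∈ B then 1 else 0 := by
  simp [bt, ee, sum_add_distrib, Pi.single_apply]

lemma bt_compl (B : Finset ι) (z : ι → ℕ) : bt B z + bt Bᶜ z = dg z := sum_add_sum_compl B z

lemma dd_le (Y Z : Finset (ι → ℕ)) (n : ℕ) (hZ : ∀ z ∈ Z, dg z = n) (hY : ∀ y ∈ Y, dg y + 1 = n)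
    (hs : ∀ z ∈ Z, ∀ i, 0 < z i → z - ee i ∈ Y) :
    n * Z.card + dd Y Z ≤ (n - 1 + Fintype.card ι) * Y.card := by
  have h1 : n * Z.card = ∑ i, ∑ z ∈ Z, z i := by
    rw [sum_comm, mul_comm, ← smul_eq_mul, ← sum_const]
    exact sum_congr rfl fun z hz => (hZ z hz).symm
  have h2 : (n - 1 + Fintype.card ι) * Y.card = ∑ i, ∑ y ∈ Y, (y i + 1) := by
    rw [sum_comm, mul_comm, ← smul_eq_mul, ← sum_const]
    refine sum_congr rfl fun y hy => ?_
    rw [sum_add_distrib, ← hY y hy]
    simp [dg]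
  rw [h1, h2, dd, ← sum_add_distrib]
  refine sum_le_sum fun i _ => ?_
  rw [← sum_filter_add_sum_filter_not Y (fun y => y + ee i ∈ Z)]
  refine add_le_add ?_ ?_
  · simpa using shift_le (Y.filter fun y => y + ee i ∈ Z) Z i id rfl (fun _ => 1) fun z hz h =>
      mem_filter.2 ⟨hs z hz i h, by rwa [sub_add_ee h]⟩
  · rw [card_eq_sum_ones]
    exact sum_le_sum fun y _ => Nat.le_add_left _ _

lemma edge (Y Z Y' Z' : Finset (ι → ℕ)) (S : Finset ι) (hY : Y' ⊆ Y)
    (h : ∀ y ∈ Y', ∀ i ∈ S, y + ee i ∈ Z → y + ee i ∈ Z') :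
    S.card * Y'.card ≤ ∑ z ∈ Z', bt S z + dd Y Z := by
  have h1 : ∑ i ∈ S, (Y.filter fun y => y + ee i ∉ Z).card ≤ dd Y Z :=
    sum_le_sum_of_subset (subset_univ S)
  refine le_trans ?_ (Nat.add_le_add_left h1 _)
  unfold bt
  rw [sum_comm, ← sum_add_distrib, ← smul_eq_mul, ← sum_const]
  refine sum_le_sum fun i hi => ?_
  rw [← card_filter_add_card_filter_not (s := Y') (fun y => y + ee i ∈ Z)]
  refine add_le_add ?_ (card_le_card (filter_subset_filter _ hY))
  rw [← card_image_of_injective _ (add_left_injective (ee i)), card_eq_sum_ones]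
  refine (sum_le_sum fun z hz => ?_).trans
    (sum_le_sum_of_subset (f := fun z : ι → ℕ => z i) fun z hz => ?_)
  · obtain ⟨y, -, rfl⟩ := mem_image.1 hz
    simp [ee]
  · obtain ⟨y, hy, rfl⟩ := mem_image.1 hz
    exact h y (mem_filter.1 hy).1 i hi (mem_filter.1 hy).2

lemma cover (Y Z : Finset (ι → ℕ)) (S : Finset ι)
    (h : ∀ z ∈ Z, ∃ i ∈ S, 0 < z i ∧ z - ee i ∈ Y) : Z.card ≤ S.card * Y.card := by
  rw [← card_product]
  refine le_trans (card_le_card fun z hz => ?_)
    (card_image_le (f := fun x : ι × (ι → ℕ) => x.2 + ee x.1))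
  obtain ⟨i, hi, h1, h2⟩ := h z hz
  exact mem_image.2 ⟨(i, z - ee i), mem_product.2 ⟨hi, h2⟩, sub_add_ee h1⟩

omit [DecidableEq ι] in
lemma window (g : ι → ℕ) (Z : Finset (ι → ℕ)) (lo hi : ℕ)
    (hi' : ∀ z ∈ Z, ∀ z' ∈ Z, wt g z = wt g z' → z = z') (h : ∀ z ∈ Z, lo ≤ wt g z ∧ wt g z < hi) :
    Z.card ≤ hi - lo := by
  rw [← Nat.card_Ico]
  exact card_le_card_of_injOn (wt g) (fun z hz => mem_Ico.2 (h z hz)) hi'

lemma up (Y Z : Finset (ι → ℕ)) (B : Finset ι) (j : ℕ)
    (hs : ∀ z ∈ Z, ∀ i, 0 < z i → z - ee i ∈ Y) :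
    (j + 1) * (Z.filter fun z => bt B z = j + 1).card ≤
      (j + B.card) * (Y.filter fun y => bt B y = j).card := by
  have h1 : (j + 1) * (Z.filter fun z => bt B z = j + 1).card =
      ∑ i ∈ B, ∑ z ∈ Z.filter fun z => bt B z = j + 1, z i := by
    rw [sum_comm, mul_comm, ← smul_eq_mul, ← sum_const]
    exact sum_congr rfl fun z hz => (mem_filter.1 hz).2.symm
  have h2 : (j + B.card) * (Y.filter fun y => bt B y = j).card =
      ∑ i ∈ B, ∑ y ∈ Y.filter fun y => bt B y = j, (y i + 1) := by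
    rw [sum_comm, mul_comm, ← smul_eq_mul, ← sum_const]
    refine sum_congr rfl fun y hy => ?_
    rw [sum_add_distrib, ← (mem_filter.1 hy).2]
    simp [bt]
  rw [h1, h2]
  refine sum_le_sum fun i hi => ?_
  simpa using shift_le (Y.filter fun y => bt B y = j) (Z.filter fun z => bt B z = j + 1) i id rfl
    (fun _ => 1) fun z hz h => mem_filter.2 ⟨hs z (mem_filter.1 hz).1 i h, by
      have := bt_ee B (z - ee i) i
      rw [sub_add_ee h, (mem_filter.1 hz).2, if_pos hi] at this
      omega⟩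

lemma down (Y Z : Finset (ι → ℕ)) (B : Finset ι) (j c : ℕ) (hZ : ∀ z ∈ Z, dg z = j + c) :
    Bᶜ.card * (Y.filter fun y => bt B y = j).card ≤
      c * (Z.filter fun z => bt B z = j).card + dd Y Z := by
  refine (edge Y Z _ (Z.filter fun z => bt B z = j) Bᶜ (filter_subset _ _)
    fun y hy i hi h => mem_filter.2 ⟨h, ?_⟩).trans (le_of_eq ?_)
  · rw [bt_ee, if_neg (mem_compl.1 hi), (mem_filter.1 hy).2, add_zero]
  · rw [mul_comm, ← smul_eq_mul, ← sum_const]
    refine congrArg (· + _) (sum_congr rfl fun z hz => ?_)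
    have := bt_compl B z
    rw [(mem_filter.1 hz).2, hZ z (mem_filter.1 hz).1] at this
    omega

/-- Few points have all their factors in a set of at most half of the variables. -/
lemma half (Y Z : Finset (ι → ℕ)) (B : Finset ι) (n m : ℕ) (hn : 3 ≤ n) (hZ : ∀ z ∈ Z, dg z = n)
    (hs : ∀ z ∈ Z, ∀ i, 0 < z i → z - ee i ∈ Y) (hm : Z.card ≤ m) (hE : 1000 * dd Y Z ≤ m)
    (hB : 100 * (n + B.card) ≤ 101 * Bᶜ.card) :
    100 * (n * (Z.filter fun z => bt B z = n).card) ≤ 45 * m := by
  obtain ⟨k, rfl⟩ : ∃ k, n = k + 1 + 1 := ⟨n - 2, by omega⟩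
  have u1 := up Y Z B (k + 1) hs
  have u2 := up Y Z B k hs
  have d1 := down Y Z B (k + 1) 1 hZ
  have d2 := down Y Z B k 2 hZ
  have hc : (Z.filter fun z => bt B z = k + 1 + 1).card + (Z.filter fun z => bt B z = k + 1).card +
      (Z.filter fun z => bt B z = k).card ≤ Z.card := by
    simp only [card_filter, ← sum_add_distrib]
    rw [card_eq_sum_ones]
    exact sum_le_sum fun z _ => by split_ifs <;> omega
  generalize (Z.filter fun z => bt B z = k + 1 + 1).card = a at *
  generalize (Z.filter fun z => bt B z = k + 1).card = b at *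
  generalize (Z.filter fun z => bt B z = k).card = c at *
  generalize (Y.filter fun z => bt B z = k + 1).card = x at *
  generalize (Y.filter fun z => bt B z = k).card = y at *
  have e1 : 100 * ((k + 1 + B.card) * x) ≤ 101 * (Bᶜ.card * x) := by
    rw [← mul_assoc, ← mul_assoc]
    exact Nat.mul_le_mul_right _ (by omega)
  have e2 : 100 * ((k + B.card) * y) ≤ 101 * (Bᶜ.card * y) := by
    rw [← mul_assoc, ← mul_assoc]
    exact Nat.mul_le_mul_right _ (by omega)
  rcases (show k = 1 ∨ 2 ≤ k by omega) with rfl | h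
  · omega
  · have : 3 * b ≤ (k + 1) * b := Nat.mul_le_mul_right _ (by omega)
    omega

/-- Most points of an end window have all their factors in `B`. -/
lemma ends (Y Z W : Finset (ι → ℕ)) (B S : Finset ι) (n : ℕ) (hZ : ∀ z ∈ Z, dg z = n) (hW : W ⊆ Z)
    (hs : ∀ z ∈ Z, ∀ i, 0 < z i → z - ee i ∈ Y)
    (h : ∀ z ∈ W, ∀ i ∉ B, 0 < z i → ∀ i' ∈ S, z - ee i + ee i' ∉ Z) :
    S.card * W.card ≤ S.card * (Z.filter fun z => bt B z = n).card + Fintype.card ι * dd Y Z := by
  have h1 := edge Y Z (Y.filter fun y => ∀ i ∈ S, y + ee i ∉ Z) ∅ S (filter_subset _ _)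
    fun y hy i hi hz => absurd hz ((mem_filter.1 hy).2 i hi)
  have h2 := cover (Y.filter fun y => ∀ i ∈ S, y + ee i ∉ Z) (W.filter fun z => ¬ bt B z = n) univ
    fun z hz => by
      obtain ⟨hz, hn⟩ := mem_filter.1 hz
      have e := bt_compl B z
      rw [hZ z (hW hz)] at e
      obtain ⟨i, hi, h0⟩ := exists_ne_zero_of_sum_ne_zero (show bt Bᶜ z ≠ 0 by omega)
      exact ⟨i, mem_univ _, Nat.pos_of_ne_zero h0, mem_filter.2 ⟨hs z (hW hz) i
        (Nat.pos_of_ne_zero h0), h z hz i (mem_compl.1 hi) (Nat.pos_of_ne_zero h0)⟩⟩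
  rw [← card_filter_add_card_filter_not (s := W) (fun z => bt B z = n), mul_add]
  refine add_le_add (Nat.mul_le_mul_left _ (card_le_card (filter_subset_filter _ hW))) ?_
  rw [sum_empty, zero_add] at h1
  rw [card_univ] at h2
  calc _ ≤ _ := Nat.mul_le_mul_left S.card h2
    _ = _ := mul_left_comm _ _ _
    _ ≤ _ := Nat.mul_le_mul_left _ h1

omit [DecidableEq ι] in
lemma cuts (g : ι → ℕ) (s : ℕ) (hs : s < Fintype.card ι) : ∃ a b : ℕ,
    (univ.filter fun i => g i < a).card ≤ s ∧ s < (univ.filter fun i => g i ≤ a).card ∧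
    (univ.filter fun i => b < g i).card ≤ s ∧ s < (univ.filter fun i => b ≤ g i).card := by
  have h1 : ∃ a, s < (univ.filter fun i => g i ≤ a).card := ⟨univ.sup g, by
    rwa [filter_true_of_mem fun i hi => le_sup (f := g) hi]⟩
  have h2 : ∃ b, (univ.filter fun i => b < g i).card ≤ s := ⟨univ.sup g, by
    rw [filter_false_of_mem fun i hi => not_lt.2 (le_sup (f := g) hi)]
    exact Nat.zero_le _⟩
  refine ⟨Nat.find h1, Nat.find h2, ?_, Nat.find_spec h1, Nat.find_spec h2, ?_⟩
  · rcases e : Nat.find h1 with _ | a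
    · simp
    · simpa only [Nat.lt_succ_iff] using not_lt.1 (Nat.find_min h1 (e ▸ Nat.lt_succ_self a))
  · rcases e : Nat.find h2 with _ | b
    · simpa using hs
    · simpa only [Nat.succ_le_iff] using not_le.1 (Nat.find_min h2 (e ▸ Nat.lt_succ_self b))

end Dead

open Dead

theorem dead : DeadStmt := by
  intro ι _ _ g Y Z m F n E hn hZ hinj hY hs hm hE hp hmn
  by_contra hc
  have hZ1 : ∀ z ∈ Z, dg z = n := fun z hz => (hZ z hz).1
  have hD : dd Y Z ≤ E := by have := dd_le Y Z n hZ1 hY hs; omega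
  have hZm : Z.card ≤ m := by
    have := window g Z (F + 1) (F + m + 1) hinj fun z hz => by have := hZ z hz; omega
    omega
  set p := Fintype.card ι with hpd
  have hn2 : 3 * n ≤ n ^ 2 := by rw [sq]; exact Nat.mul_le_mul_right _ hn
  have hnE : n * E * 3 ≤ n ^ 2 * E := by nlinarith [Nat.mul_le_mul_right E hn2]
  have hEn : 3 * E ≤ n * E := Nat.mul_le_mul_right _ hn
  rw [mul_assoc] at hE
  set s := p / (100 * n) with hsd
  have hs1 : 100 * n * s ≤ p := Nat.mul_div_le _ _
  have hs2 : p < 100 * n * (s + 1) := Nat.lt_mul_div_succ _ (by omega)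
  have hs3 : s < p := Nat.div_lt_self (by omega) (by omega)
  obtain ⟨a, b, a1, a2, b1, b2⟩ := cuts g s hs3
  let Z0 := Z.filter fun z => ∀ i, 0 < z i → a ≤ g i ∧ g i ≤ b
  have h1 : Z.card ≤ Z0.card + 2 * (s * Y.card) := by
    rw [← card_filter_add_card_filter_not (s := Z) (fun z => ∀ i, 0 < z i → a ≤ g i ∧ g i ≤ b)]
    refine Nat.add_le_add_left ((cover Y _ ((univ.filter fun i => g i < a) ∪
      univ.filter fun i => b < g i) fun z hz => ?_).trans ?_) _
    · obtain ⟨hz, h⟩ := mem_filter.1 hz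
      push Not at h
      obtain ⟨i, h0, h⟩ := h
      refine ⟨i, ?_, h0, hs z hz i h0⟩
      simp only [mem_union, mem_filter, mem_univ, true_and]
      omega
    · rw [← mul_assoc]
      exact Nat.mul_le_mul_right _ ((card_union_le _ _).trans (by omega))
  have h2 : 100 * (s * Y.card) ≤ m + E := by
    refine Nat.le_of_mul_le_mul_left ?_ (show 0 < n by omega)
    have e1 : 100 * n * s * Y.card ≤ (n - 1 + p) * Y.card := Nat.mul_le_mul_right _ (by omega)
    have e2 := Nat.mul_le_mul_left n hZm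
    have e3 : n * (100 * (s * Y.card)) = 100 * n * s * Y.card := by ring
    rw [mul_add]
    omega
  have h3 : Z0.card ≤ n * b + 1 - n * a := window g Z0 _ _
    (fun z hz z' hz' => hinj z (mem_filter.1 hz).1 z' (mem_filter.1 hz').1) fun z hz => by
      obtain ⟨hz, h⟩ := mem_filter.1 hz
      rw [← hZ1 z hz, Nat.lt_succ_iff, dg, wt, sum_mul, sum_mul]
      refine ⟨sum_le_sum fun i _ => ?_, sum_le_sum fun i _ => ?_⟩ <;>
        rcases Nat.eq_zero_or_pos (z i) with e | e
      exacts [by simp [e], Nat.mul_le_mul_left _ (h i e).1, by simp [e],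
        Nat.mul_le_mul_left _ (h i e).2]
  set t := (Z0.card - 1) / (2 * n) with htd
  have ht1 : 2 * n * t ≤ Z0.card - 1 := Nat.mul_div_le _ _
  have ht2 : Z0.card - 1 < 2 * n * (t + 1) := Nat.lt_mul_div_succ _ (by omega)
  have ht3 : a + 2 * t ≤ b := by
    refine Nat.le_of_mul_le_mul_left ?_ (show 0 < n by omega)
    have : n * (a + 2 * t) = n * a + 2 * n * t := by ring
    omega
  have ht4 : t ≤ m := ((Nat.div_le_self _ _).trans (Nat.sub_le _ _)).trans
    ((card_filter_le _ _).trans hZm)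
  have key : ∀ (B S : Finset ι) (W : Finset (ι → ℕ)), 2 * B.card ≤ p → s < S.card → W ⊆ Z →
      t ≤ W.card + E → (∀ z ∈ W, ∀ i ∉ B, 0 < z i → ∀ i' ∈ S, z - ee i + ee i' ∉ Z) → False := by
    intro B S W hB hS hW htW h
    have e1 := ends Y Z W B S n hZ1 hW hs h
    have e2 := half Y Z B n m hn hZ1 hs hZm (by omega) (by
      have := card_add_card_compl B
      omega)
    generalize (Z.filter fun z => bt B z = n).card = v at *
    have e3 : W.card ≤ v + 100 * (n * E) := by
      refine Nat.le_of_mul_le_mul_left ?_ (show 0 < S.card by omega)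
      have : p * dd Y Z ≤ 100 * n * S.card * E :=
        Nat.mul_le_mul (hs2.le.trans (Nat.mul_le_mul_left _ hS)) hD
      nlinarith
    have e4 : n * t ≤ n * (v + 100 * (n * E) + E) := Nat.mul_le_mul_left _ (by omega)
    have e5 : n * (v + 100 * (n * E) + E) = n * v + 100 * (n ^ 2 * E) + n * E := by ring
    have e6 : 2 * n * (t + 1) = 2 * (n * t) + 2 * n := by ring
    omega
  have hw : ∀ z : ι → ℕ, ∀ i i', 0 < z i → wt g (z - ee i + ee i') + g i = wt g z + g i' :=
    fun z i i' h => by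
      have := wt_ee g (z - ee i) i
      rw [sub_add_ee h] at this
      rw [wt_ee]
      omega
  have hsub : ∀ (P : (ι → ℕ) → Prop) [DecidablePred P], ∀ z ∈ Z.filter P, ∀ z' ∈ Z.filter P,
      wt g z = wt g z' → z = z' := fun P _ z hz z' hz' =>
    hinj z (mem_filter.1 hz).1 z' (mem_filter.1 hz').1
  have hd : (univ.filter fun i => b < g i + t).card + (univ.filter fun i => g i < a + t).card ≤ p := by
    rw [← card_union_of_disjoint (disjoint_filter.2 fun i _ h h' => by omega)]
    exact card_le_univ _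
  rcases le_total (univ.filter fun i => b < g i + t).card (univ.filter fun i => g i < a + t).card
    with h | h
  · refine key (univ.filter fun i => b < g i + t) _ (Z.filter fun z => F + m < wt g z + t)
      (by omega) b2 (filter_subset _ _) ?_ fun z hz i hi h0 i' hi' hz' => ?_
    · have e1 := card_filter_add_card_filter_not (s := Z) (fun z => F + m < wt g z + t)
      have e2 := window g _ (F + 1) (F + m - t + 1) (hsub fun z => ¬ F + m < wt g z + t)
        fun z hz => by have := hZ z (mem_filter.1 hz).1; have := (mem_filter.1 hz).2; omega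
      omega
    · have e1 := hw z i i' h0
      have e2 := hZ _ hz'
      simp only [mem_filter, mem_univ, true_and] at hz hi hi'
      omega
  · refine key (univ.filter fun i => g i < a + t) _ (Z.filter fun z => wt g z ≤ F + t)
      (by omega) a2 (filter_subset _ _) ?_ fun z hz i hi h0 i' hi' hz' => ?_
    · have e1 := card_filter_add_card_filter_not (s := Z) (fun z => wt g z ≤ F + t)
      have e2 := window g _ (F + t + 1) (F + m + 1) (hsub fun z => ¬ wt g z ≤ F + t)
        fun z hz => by have := hZ z (mem_filter.1 hz).1; have := (mem_filter.1 hz).2; omega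
      omega
    · have e1 := hw z i i' h0
      have e2 := hZ _ hz'
      simp only [mem_filter, mem_univ, true_and] at hz hi hi'
      omega

end Pool.Agent.MP_96f5a9_co.H59

end MrgPart1

-- ======== part 2: formerly Pool.Agent.MP_96f5a9_co.h59.Main1
section MrgPart2

/-!
Level counting for the order ideal: sizes of levels, supports, and the surplus of sparse levels.
-/

set_option autoImplicit false

namespace Pool.Agent.MP_96f5a9_co.H59

open Finset H51 H16

variable {ι : Type} [Fintype ι] [DecidableEq ι]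

omit [Fintype ι] in
lemma down_ee {T : Finset (ι → ℕ)} (hT : ∀ x ∈ T, ∀ y, y ≤ x → y ∈ T) {z : ι → ℕ} (hz : z ∈ T)
    (i : ι) : z - ee i ∈ T := hT z hz _ fun _ => Nat.sub_le _ _

lemma level_le {T : Finset (ι → ℕ)} (hT : ∀ x ∈ T, ∀ y, y ≤ x → y ∈ T) (D : ℕ) :
    (T.filter fun z => dg z = D).card ≤ Fintype.card ι ^ D := by
  induction D with
  | zero =>
    rw [pow_zero]
    refine card_le_one.2 fun a ha b hb => ?_
    have h1 := (mem_filter.1 ha).2
    have h2 := (mem_filter.1 hb).2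
    rw [dg, sum_eq_zero_iff] at h1 h2
    funext i
    rw [h1 i (mem_univ _), h2 i (mem_univ _)]
  | succ D ih =>
    have h : (T.filter fun z => dg z = D + 1) ⊆
        ((T.filter fun z => dg z = D) ×ˢ (univ : Finset ι)).image fun q => q.1 + ee q.2 := by
      intro z hz
      obtain ⟨h1, h2⟩ := mem_filter.1 hz
      obtain ⟨i, hi⟩ : ∃ i, 0 < z i := by
        by_contra c
        push Not at c
        have : dg z = 0 := sum_eq_zero fun i _ => Nat.le_zero.1 (c i)
        omega
      have h3 := dg_sub hi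
      exact mem_image.2 ⟨(z - ee i, i), mem_product.2
        ⟨mem_filter.2 ⟨down_ee hT h1 i, by show dg (z - ee i) = D; omega⟩, mem_univ _⟩,
        sub_add_ee hi⟩
    refine (card_le_card h).trans (card_image_le.trans ?_)
    rw [card_product, card_univ, pow_succ]
    exact Nat.mul_le_mul_right _ ih

lemma low_le {T : Finset (ι → ℕ)} (hT : ∀ x ∈ T, ∀ y, y ≤ x → y ∈ T) (n : ℕ)
    (hp : 0 < Fintype.card ι) :
    Fintype.card ι * (T.filter fun z => dg z < n).card ≤ n * Fintype.card ι ^ n := by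
  have h : ∀ z ∈ T.filter fun z => dg z < n, dg z ∈ range n := fun z hz =>
    mem_range.2 (mem_filter.1 hz).2
  rw [card_eq_sum_card_fiberwise h, mul_sum]
  refine (sum_le_card_nsmul _ _ (Fintype.card ι ^ n) fun D hD => ?_).trans (by simp)
  calc _ ≤ Fintype.card ι * Fintype.card ι ^ D := by
        refine Nat.mul_le_mul_left _ ((card_le_card fun z hz => ?_).trans (level_le hT D))
        exact mem_filter.2 ⟨(mem_filter.1 (mem_filter.1 hz).1).1, (mem_filter.1 hz).2⟩
    _ ≤ _ := by
        rw [← pow_succ']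
        exact Nat.pow_le_pow_right hp (mem_range.1 hD)

lemma level_lt' {T : Finset (ι → ℕ)} (hT : ∀ x ∈ T, ∀ y, y ≤ x → y ∈ T) (x n : ℕ)
    (h : (T.filter fun z => dg z = n).card < (n + x).choose x) (D : ℕ) (hD : n ≤ D) :
    (T.filter fun z => dg z = D).card < (D + x).choose x := by
  induction D, hD using Nat.le_induction with
  | base => exact h
  | succ D _ ih =>
    by_contra c
    obtain ⟨B, b1, b2⟩ := exists_subset_card_eq (not_lt.1 c)
    have k2 := ratio x (D + 1) B (fun z hz => (mem_filter.1 (b1 hz)).2) b2.le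
    have k3 : (sh B).card ≤ (T.filter fun z => dg z = D).card := card_le_card fun y hy => by
      obtain ⟨i, hi⟩ := mem_sh.1 hy
      obtain ⟨h1, h2⟩ := mem_filter.1 (b1 hi)
      rw [dg_add_ee] at h2
      exact mem_filter.2 ⟨hT _ h1 _ fun j => Nat.le_add_right _ _, by omega⟩
    rw [b2, choose_step] at k2
    have := Nat.le_of_mul_le_mul_left k2 (by omega)
    omega

lemma supp_lt' {T : Finset (ι → ℕ)} (hT : ∀ x ∈ T, ∀ y, y ≤ x → y ∈ T) (x n : ℕ)
    (h : (T.filter fun z => dg z = n).card < (n + x).choose x) {z : ι → ℕ} (hz : z ∈ T) :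
    (univ.filter fun i => 0 < z i).card < n + x := by
  by_contra c
  have h1 := Nat.choose_le_choose n (not_lt.1 c)
  have h2 : (powersetCard n (univ.filter fun i => 0 < z i)).card ≤
      (T.filter fun z => dg z = n).card := by
    refine card_le_card_of_injOn (fun A i => if i ∈ A then 1 else 0) (fun A hA => ?_)
      fun A _ B _ e => ?_
    · obtain ⟨a1, a2⟩ := mem_powersetCard.1 (mem_coe.1 hA)
      refine mem_coe.2 (mem_filter.2 ⟨hT z hz _ fun i => ?_, by simp [dg, a2]⟩)
      show (if i ∈ A then 1 else 0) ≤ z i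
      split_ifs with c'
      · exact (mem_filter.1 (a1 c')).2
      · exact Nat.zero_le _
    · ext i
      have := congrFun e i
      simp only at this
      split_ifs at this <;> simp_all
  rw [card_powersetCard] at h2
  rw [← Nat.choose_symm_add] at h
  omega

lemma pow_le_choose (p R n : ℕ) (hR : 0 < R) :
    p ^ n ≤ (R * n) ^ n * (n + p / R).choose (p / R) := by
  have h1 : (p / R + 1) ^ n ≤ (n + p / R).descFactorial n := by
    have := Nat.pow_sub_le_descFactorial (n + p / R) n
    rwa [add_assoc, Nat.add_sub_cancel_left] at this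
  rw [Nat.descFactorial_eq_factorial_mul_choose, Nat.choose_symm_add] at h1
  calc p ^ n ≤ (R * (p / R + 1)) ^ n := Nat.pow_le_pow_left (Nat.lt_mul_div_succ p hR).le _
    _ = R ^ n * (p / R + 1) ^ n := mul_pow _ _ _
    _ ≤ R ^ n * (n ^ n * (n + p / R).choose (p / R)) :=
        Nat.mul_le_mul_left _ (h1.trans (Nat.mul_le_mul_right _ (Nat.factorial_le_pow n)))
    _ = _ := by rw [mul_pow, mul_assoc]

/-- A point below a point of the ideal is not a top element. -/
lemma nontop {g : ι → ℕ} {T : Finset (ι → ℕ)} {m F : ℕ} (M : Md g T m F) {y : ι → ℕ} {i : ι}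
    (h : y + ee i ∈ T) : wt g y ≤ F := by
  have h1 := M.top _ h
  have h2 := M.le i
  rw [wt_ee] at h1
  omega

lemma edges {g : ι → ℕ} {T : Finset (ι → ℕ)} {m F : ℕ} (M : Md g T m F) (n : ℕ) :
    n * (T.filter fun z => dg z = n).card ≤
      (n - 1 + Fintype.card ι) * (T.filter fun y => dg y + 1 = n ∧ wt g y ≤ F).card := by
  calc _ = ∑ z ∈ T.filter fun z => dg z = n, ∑ i, z i * 1 := by
        rw [mul_comm, ← smul_eq_mul, ← sum_const]
        refine sum_congr rfl fun z hz => ?_
        rw [← (mem_filter.1 hz).2]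
        simp [dg]
    _ ≤ ∑ y ∈ T.filter fun y => dg y + 1 = n ∧ wt g y ≤ F, ∑ i, (y i + 1) * 1 := by
        rw [sum_comm, sum_comm (s := T.filter fun y => dg y + 1 = n ∧ wt g y ≤ F)]
        refine sum_le_sum fun i _ => shift_le _ _ i id rfl (fun _ => 1) fun z hz hi => ?_
        obtain ⟨h1, h2⟩ := mem_filter.1 hz
        have h3 := dg_sub hi
        exact mem_filter.2 ⟨down_ee M.down h1 i, by omega,
          nontop M (i := i) (by rwa [sub_add_ee hi])⟩
    _ = _ := by
        rw [mul_comm, ← smul_eq_mul, ← sum_const]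
        refine sum_congr rfl fun y hy => ?_
        have h := (mem_filter.1 hy).2.1
        simp only [mul_one, sum_add_distrib, sum_const, card_univ, smul_eq_mul]
        unfold dg at h
        omega

lemma star (n x p P Q D : ℕ) (hD : n < D) (h1 : (3 + Q) * (2 * x + n) + P ≤ p)
    (h2 : 3 * x + 4 * n + 5 + 2 * Q + P ≤ p) :
    (D + ((if D < x + n + 1 then D - 2 else x + n + 2) + n) + Q) * (D + x) + D * P ≤
      D * (D - 1 + p) := by
  obtain ⟨d, rfl⟩ : ∃ d, D = d + 1 := ⟨D - 1, by omega⟩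
  rw [Nat.add_sub_cancel]
  split_ifs with c
  · have a1 : d + 1 + (d + 1 - 2 + n) + Q ≤ (d + 1) * (3 + Q) := by
      have : Q ≤ (d + 1) * Q := Nat.le_mul_of_pos_left _ (by omega)
      rw [mul_add]
      omega
    calc _ ≤ (d + 1) * (3 + Q) * (2 * x + n) + (d + 1) * P :=
          Nat.add_le_add_right (Nat.mul_le_mul a1 (by omega)) _
      _ = (d + 1) * ((3 + Q) * (2 * x + n) + P) := by ring
      _ ≤ _ := Nat.mul_le_mul_left _ (by omega)
  · have a1 : (x + n + 2 + n + Q) * x ≤ (x + n + 2 + n + Q) * (d + 1) :=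
      Nat.mul_le_mul_left _ (by omega)
    have a2 : (d + 1) * (3 * x + 4 * n + 5 + 2 * Q + P) ≤ (d + 1) * p := Nat.mul_le_mul_left _ h2
    nlinarith

/-- The sparse levels pay for themselves with a surplus. -/
lemma high {g : ι → ℕ} {T : Finset (ι → ℕ)} {m F : ℕ} (M : Md g T m F) (n x P Q : ℕ)
    (h : (T.filter fun z => dg z = n + 1).card < (n + 1 + x).choose x)
    (h1 : (3 + Q) * (2 * x + n) + P ≤ Fintype.card ι)
    (h2 : 3 * x + 4 * n + 5 + 2 * Q + P ≤ Fintype.card ι) :
    ∑ z ∈ T.filter (fun z => n < dg z),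
        (dg z + ((if dg z < x + n + 1 then dg z - 2 else x + n + 2) + n) + Q) +
      P * (T.filter fun y => n ≤ dg y ∧ wt g y ≤ F).card ≤
      ∑ y ∈ T.filter (fun y => n ≤ dg y ∧ wt g y ≤ F), (dg y + Fintype.card ι) := by
  set p := Fintype.card ι
  set U := T.filter fun y => n ≤ dg y ∧ wt g y ≤ F
  have hN : ∀ z ∈ T.filter (fun z => n < dg z), dg z ∈ Ioo n (T.sup dg + 2) := fun z hz =>
    mem_Ioo.2 ⟨(mem_filter.1 hz).2, by have := le_sup (f := dg) (mem_filter.1 hz).1; omega⟩
  have hN' : ∀ z ∈ U, dg z + 1 ∈ Ioo n (T.sup dg + 2) := fun z hz =>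
    mem_Ioo.2 ⟨by have := (mem_filter.1 hz).2.1; omega,
      by have := le_sup (f := dg) (mem_filter.1 hz).1; omega⟩
  rw [← sum_fiberwise_of_maps_to hN, ← sum_fiberwise_of_maps_to hN', card_eq_sum_card_fiberwise hN',
    mul_sum, ← sum_add_distrib]
  refine sum_le_sum fun D hD => ?_
  have hD' := (mem_Ioo.1 hD).1
  rw [sum_congr rfl (g := fun _ => D + ((if D < x + n + 1 then D - 2 else x + n + 2) + n) + Q)
      fun z hz => by rw [(mem_filter.1 hz).2], sum_const, smul_eq_mul,
    sum_congr rfl (g := fun _ => D - 1 + p)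
      fun z hz => by rw [← (mem_filter.1 hz).2, Nat.add_sub_cancel], sum_const, smul_eq_mul]
  have a1 := ratio x D _ (fun z hz => (mem_filter.1 hz).2) (level_lt' M.down x _ h D hD').le
  have a2 : (sh (T.filter fun z => dg z = D)).card ≤ (U.filter fun y => dg y + 1 = D).card :=
    card_le_card fun y hy => by
      obtain ⟨i, hi⟩ := mem_sh.1 hy
      obtain ⟨b1, b2⟩ := mem_filter.1 hi
      rw [dg_add_ee] at b2
      exact mem_filter.2 ⟨mem_filter.2 ⟨M.down _ b1 _ fun j => Nat.le_add_right _ _, by omega,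
        nontop M b1⟩, b2⟩
  have a3 : ((T.filter fun z => n < dg z).filter fun z => dg z = D).card ≤
      (T.filter fun z => dg z = D).card := card_le_card fun z hz =>
    mem_filter.2 ⟨(mem_filter.1 (mem_filter.1 hz).1).1, (mem_filter.1 hz).2⟩
  have a4 := star n x p P Q D hD' h1 h2
  generalize D + ((if D < x + n + 1 then D - 2 else x + n + 2) + n) + Q = c at a4 ⊢
  generalize (U.filter fun y => dg y + 1 = D).card = u at a2 ⊢
  generalize ((T.filter fun z => n < dg z).filter fun z => dg z = D).card = t at a3 ⊢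
  have a5 : D * t ≤ (D + x) * u :=
    (Nat.mul_le_mul_left _ a3).trans (a1.trans (Nat.mul_le_mul_left _ a2))
  refine Nat.le_of_mul_le_mul_left ?_ (show 0 < D by omega)
  calc D * (t * c + P * u) = c * (D * t) + D * P * u := by ring
    _ ≤ c * ((D + x) * u) + D * P * u := Nat.add_le_add_right (Nat.mul_le_mul_left _ a5) _
    _ = (c * (D + x) + D * P) * u := by ring
    _ ≤ D * (D - 1 + p) * u := Nat.mul_le_mul_right _ a4
    _ = _ := by ring

end Pool.Agent.MP_96f5a9_co.H59

end MrgPart2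

-- ======== part 3: formerly Pool.Agent.MP_96f5a9_co.h59.Main
section MrgPart3

/-!
Wilf's inequality for order ideals of polynomial size, from the three modules.
-/

set_option autoImplicit false

namespace Pool.Agent.MP_96f5a9_co.H59

open Finset H51 H16

variable {ι : Type} [Fintype ι] [DecidableEq ι]

lemma core' (hc : CoreStmt) {g : ι → ℕ} {T : Finset (ι → ℕ)} {m F : ℕ} (M : Md g T m F)
    (n x P Q : ℕ) (hn : 3 ≤ n)
    (h : (T.filter fun z => dg z = n + 1).card < (n + 1 + x).choose x)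
    (h1 : (3 + Q) * (2 * x + n) + P ≤ Fintype.card ι)
    (h2 : 3 * x + 4 * n + 5 + 2 * Q + P ≤ Fintype.card ι)
    (gs : Fin n → ℕ) (G : Finset (ι → ℕ)) (hs : ∑ j, gs j ≤ F + m) (hG : G ⊆ T)
    (hg : ∀ z ∈ G, Good g m F n gs z) :
    ∑ j, gs j + (n - 1 + Fintype.card ι) * (T.filter fun y => dg y + 1 = n ∧ wt g y ≤ F).card +
      Q * (T.filter fun z => n < dg z).card + P * (T.filter fun y => n ≤ dg y ∧ wt g y ≤ F).card ≤
      (Fintype.card ι + 1) * ∑ x ∈ T, (F + m - wt g x) / m +
        n * (T.filter fun z => dg z = n).card + 2 * n * (T \ G).card := by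
  have a0 := hc ι g T m F (x + n + 1) (x + n + 2) n gs G M hn (by omega) (by omega)
    (fun z hz => (supp_lt' M.down x _ h hz).trans_le (by omega)) hs hG hg
  have a1 := high M n x P Q h h1 h2
  have a2 : ∑ y ∈ T.filter (fun y => n ≤ dg y + 1 ∧ wt g y ≤ F), (dg y + Fintype.card ι) =
      (n - 1 + Fintype.card ι) * (T.filter fun y => dg y + 1 = n ∧ wt g y ≤ F).card +
        ∑ y ∈ T.filter (fun y => n ≤ dg y ∧ wt g y ≤ F), (dg y + Fintype.card ι) := by
    rw [← sum_filter_add_sum_filter_not _ fun y => dg y + 1 = n, filter_filter, filter_filter,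
      mul_comm, ← smul_eq_mul, ← sum_const]
    congr 1
    · refine sum_congr (filter_congr fun y _ => by omega) fun y hy => ?_
      have := (mem_filter.1 hy).2.1
      omega
    · exact sum_congr (filter_congr fun y _ => by omega) fun _ _ => rfl
  have a3 : ∑ z ∈ T.filter (fun z => n ≤ dg z), dg z =
      n * (T.filter fun z => dg z = n).card + ∑ z ∈ T.filter (fun z => n < dg z), dg z := by
    rw [← sum_filter_add_sum_filter_not _ fun y => dg y = n, filter_filter, filter_filter,
      mul_comm, ← smul_eq_mul, ← sum_const]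
    congr 1
    · exact sum_congr (filter_congr fun y _ => by omega) fun y hy => (mem_filter.1 hy).2
    · exact sum_congr (filter_congr fun y _ => by omega) fun _ _ => rfl
  have a4 : ∑ z ∈ T \ G, ((if dg z < x + n + 1 then dg z - 2 else x + n + 2) + n) ≤
      ∑ z ∈ T.filter (fun z => n < dg z),
        ((if dg z < x + n + 1 then dg z - 2 else x + n + 2) + n) + 2 * n * (T \ G).card := by
    rw [← sum_filter_add_sum_filter_not _ fun y => n < dg y]
    refine Nat.add_le_add (sum_le_sum_of_subset (filter_subset_filter _ sdiff_subset)) ?_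
    refine (sum_le_card_nsmul _ _ (2 * n) fun z hz => ?_).trans ?_
    · have := (mem_filter.1 hz).2
      rw [if_pos (by omega)]
      omega
    · rw [smul_eq_mul, mul_comm]
      exact Nat.mul_le_mul_left _ (card_filter_le _ _)
  rw [sum_add_distrib, sum_add_distrib (f := fun z => dg z), sum_const, smul_eq_mul,
    mul_comm _ Q] at a1
  omega

theorem dense (hc : CoreStmt) (hd : DomStmt) (he : DeadStmt) (n R : ℕ) (hn : 3 ≤ n)
    (hR : 8 * (3 + 24 * n * (10 ^ 4 * n ^ 2 * (5 * n ^ 2))) ≤ R) :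
    ∃ p0 : ℕ, ∀ (ι : Type) [Fintype ι] [DecidableEq ι] (g : ι → ℕ)
      (T : Finset (ι → ℕ)) (m F : ℕ), Md g T m F → p0 ≤ Fintype.card ι →
      (n + Fintype.card ι / R).choose (Fintype.card ι / R) ≤ (T.filter fun z => dg z = n).card →
      (T.filter fun z => dg z = n + 1).card <
        (n + 1 + Fintype.card ι / R).choose (Fintype.card ι / R) →
      F + 1 ≤ (Fintype.card ι + 1) * ∑ x ∈ T, (F + m - wt g x) / m := by
  obtain ⟨N, hN⟩ : ∃ N, N = 10 ^ 4 * n ^ 2 * (5 * n ^ 2) := ⟨_, rfl⟩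
  rw [← hN] at hR
  obtain ⟨Q, hQ⟩ : ∃ Q, Q = 24 * n * N := ⟨_, rfl⟩
  rw [← hQ] at hR
  obtain ⟨A, hA⟩ : ∃ A, A = (R * n) ^ n := ⟨_, rfl⟩
  obtain ⟨K, hK⟩ : ∃ K, K = 4 * n * A * N + (n + 20 * n * (n + 1)) := ⟨_, rfl⟩
  refine ⟨K ^ (7 * n ^ 2) + 1 + 12 * N * n * A + 4 * Q + 2 * ((3 + Q) * n) +
    2 * (4 * n + 5 + 2 * Q) + 10 ^ 3 * n ^ 2, fun ι _ _ g T m F M hp h0 h1 => ?_⟩
  by_contra hW
  obtain ⟨p, hp'⟩ : ∃ p, p = Fintype.card ι := ⟨_, rfl⟩
  obtain ⟨x, hx⟩ : ∃ x, x = p / R := ⟨_, rfl⟩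
  have hR0 : 0 < R := by omega
  have hRx : R * x ≤ p := hx ▸ Nat.mul_div_le p R
  have hn2 : 9 ≤ n ^ 2 := by nlinarith
  have hN0 : 10 ^ 3 ≤ N := by rw [hN]; nlinarith
  have hQ0 : 72 * N ≤ Q := by rw [hQ]; nlinarith
  have hA0 : 0 < A := by rw [hA]; positivity
  rw [← hp'] at hp hW
  rw [← hp', ← hx] at h0 h1
  have c0 : 8 * (3 + Q) * x ≤ p := (Nat.mul_le_mul_right _ hR).trans hRx
  have c1 : (3 + Q) * (2 * x + n) + p / 4 ≤ Fintype.card ι := by
    have : (3 + Q) * (2 * x + n) * 4 = 8 * (3 + Q) * x + 4 * ((3 + Q) * n) := by ring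
    omega
  have c2 : 3 * x + 4 * n + 5 + 2 * Q + p / 4 ≤ Fintype.card ι := by
    have : 8 * (3 + Q) * x = 24 * x + 8 * (Q * x) := by ring
    omega
  have C := core' hc M n x (p / 4) Q hn h1 c1 c2
  have ed := edges M n
  have lo := low_le M.down n (by omega)
  have lv := level_le M.down n
  have pw := pow_le_choose p R n hR0
  rw [← hp'] at C ed lo lv
  rw [← hx, ← hA] at pw
  set Y := T.filter fun y => dg y + 1 = n ∧ wt g y ≤ F with hY
  set Z := T.filter fun z => F < wt g z ∧ dg z = n with hZ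
  set Hh := T.filter fun z => n < dg z
  set U := T.filter fun y => n ≤ dg y ∧ wt g y ≤ F
  set Lo := T.filter fun z => dg z < n
  set Tn := T.filter fun z => dg z = n
  have mT := M.card
  have m0 := M.pos
  have tm : Tn.card ≤ m := mT ▸ card_filter_le _ _
  have s1 : m ≤ Lo.card + Z.card + U.card + Hh.card := by
    refine mT.symm.le.trans ((card_le_card (t := Lo ∪ Z ∪ U ∪ Hh) fun z hz => ?_).trans ?_)
    · simp only [Lo, Z, U, Hh, mem_union, mem_filter, hz, true_and]
      omega
    · exact (card_union_le _ _).trans (Nat.add_le_add_right ((card_union_le _ _).trans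
        (Nat.add_le_add_right (card_union_le _ _) _)) _)
  have s2 : m ≤ Lo.card + Tn.card + Hh.card := by
    refine mT.symm.le.trans ((card_le_card (t := Lo ∪ Tn ∪ Hh) fun z hz => ?_).trans ?_)
    · simp only [Lo, Tn, Hh, mem_union, mem_filter, hz, true_and]
      omega
    · exact (card_union_le _ _).trans (Nat.add_le_add_right (card_union_le _ _) _)
  have s3 : (T.filter fun y => wt g y ≤ F).card ≤ Lo.card + U.card := by
    refine (card_le_card (t := Lo ∪ U) fun z hz => ?_).trans (card_union_le _ _)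
    obtain ⟨b1, b2⟩ := mem_filter.1 hz
    simp only [Lo, U, mem_union, mem_filter, b1, true_and]
    omega
  -- the crude application
  have k0 : Q * Hh.card + p / 4 * U.card ≤ 2 * n * m := by
    have b1 : ∑ j : Fin n, (Pi.single (⟨0, by omega⟩ : Fin n) (F + 1) : Fin n → ℕ) j = F + 1 := by
      simp
    have := C (Pi.single (⟨0, by omega⟩ : Fin n) (F + 1)) ∅ (by omega) (empty_subset _) (by simp)
    rw [b1, sdiff_empty, mT] at this
    omega
  have pm : p ^ n ≤ A * m := pw.trans (Nat.mul_le_mul_left _ (h0.trans tm))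
  have k1 : 12 * N * Hh.card ≤ m := by
    refine Nat.le_of_mul_le_mul_left (c := 2 * n) ?_ (by omega)
    calc 2 * n * (12 * N * Hh.card) = Q * Hh.card := by rw [hQ]; ring
      _ ≤ _ := by omega
  have k2 : 12 * N * U.card ≤ m := by
    refine Nat.le_of_mul_le_mul_left (c := 2 * n) ?_ (by omega)
    calc 2 * n * (12 * N * U.card) = Q * U.card := by rw [hQ]; ring
      _ ≤ p / 4 * U.card := Nat.mul_le_mul_right _ (by omega)
      _ ≤ _ := by omega
  have k3 : 12 * N * Lo.card ≤ m := by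
    refine Nat.le_of_mul_le_mul_left (c := n * A) ?_ (by positivity)
    calc n * A * (12 * N * Lo.card) = 12 * N * n * A * Lo.card := by ring
      _ ≤ p * Lo.card := Nat.mul_le_mul_right _ (by omega)
      _ ≤ n * (A * m) := lo.trans (Nat.mul_le_mul_left _ pm)
      _ = _ := by ring
  have k4 : 12 * N * n ≤ m := by
    refine Nat.le_of_mul_le_mul_left (c := A) ?_ hA0
    calc A * (12 * N * n) = 12 * N * n * A := by ring
      _ ≤ p := by omega
      _ ≤ p ^ n := Nat.le_self_pow (by omega) _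
      _ ≤ _ := pm
  have k5 : m ≤ 2 * p ^ n := by
    have b1 : 12 * 1 * Hh.card ≤ 12 * N * Hh.card := by gcongr; omega
    have b2 : 12 * 1 * Lo.card ≤ 12 * N * Lo.card := by gcongr; omega
    omega
  obtain ⟨E, hE⟩ : ∃ E, E = m / (10 ^ 4 * n ^ 2) := ⟨_, rfl⟩
  obtain ⟨d, hd'⟩ : ∃ d, d = E / (5 * n ^ 2) := ⟨_, rfl⟩
  have e1 : 10 ^ 4 * n ^ 2 * E ≤ m := hE ▸ Nat.mul_div_le _ _
  have e2 : 5 * n ^ 2 * d ≤ E := hd' ▸ Nat.mul_div_le _ _
  have e3 : m < N * (d + 1) := by
    rw [hd', hE, Nat.div_div_eq_div_mul, ← hN]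
    exact Nat.lt_mul_div_succ m (by omega)
  have k6 : N * 1 ≤ N * n := Nat.mul_le_mul_left _ (by omega)
  have k7 : 12 * N * n = 12 * (N * n) := by ring
  have e4 : m ≤ 2 * (N * d) := by
    rcases Nat.eq_zero_or_pos d with c | c
    · rw [c] at e3
      omega
    · have : N * 1 ≤ N * d := Nat.mul_le_mul_left _ c
      rw [mul_add] at e3
      omega
  have e5 : 2 * (Lo.card + U.card + Hh.card) ≤ d := by
    refine Nat.le_of_mul_le_mul_left (c := 6 * N) ?_ (by omega)
    calc 6 * N * (2 * (Lo.card + U.card + Hh.card)) =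
          12 * N * Lo.card + 12 * N * U.card + 12 * N * Hh.card := by ring
      _ ≤ 6 * (N * d) := by omega
      _ = _ := by ring
  have e6 : 3 * (n * d) ≤ n ^ 2 * d := by
    rw [← mul_assoc, sq]
    gcongr
  have e7 : 3 * d ≤ n * d := Nat.mul_le_mul_right _ hn
  have e8 : 9 * E ≤ n ^ 2 * E := Nat.mul_le_mul_right _ hn2
  rw [mul_assoc] at e1 e2
  have e9 : 2 * n * p ^ n ≤ K * d := by
    calc 2 * n * p ^ n ≤ 2 * n * (A * (2 * (N * d))) :=
          Nat.mul_le_mul_left _ (pm.trans (Nat.mul_le_mul_left _ e4))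
      _ = 4 * n * A * N * d := by ring
      _ ≤ _ := Nat.mul_le_mul_right _ (by omega)
  have e10 : p * (T.filter fun y => wt g y ≤ F).card ≤ K * p ^ n := by
    have b1 : p * U.card ≤ 5 * (p / 4) * U.card := Nat.mul_le_mul_right _ (by omega)
    have b2 : 2 * n * m ≤ 2 * n * (2 * p ^ n) := Nat.mul_le_mul_left _ k5
    calc _ ≤ p * Lo.card + p * U.card := by
          rw [← mul_add]
          exact Nat.mul_le_mul_left _ s3
      _ ≤ n * p ^ n + 5 * (2 * n * (2 * p ^ n)) := by
          rw [mul_assoc] at b1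
          omega
      _ = (n + 20 * n * 1) * p ^ n := by ring
      _ ≤ _ := by
          refine Nat.mul_le_mul_right _ ?_
          have : 20 * n * 1 ≤ 20 * n * (n + 1) := Nat.mul_le_mul_left _ (by omega)
          omega
  obtain ⟨gs, G, g1, g2, g3, g4, g5⟩ := hd ι g T m F n d d K Z M (by omega) (filter_subset _ _)
    (fun z hz => (mem_filter.1 hz).2) (by omega) (by omega) (by omega) (hp' ▸ e9)
    (by
      rw [← hp']
      exact (Nat.le_mul_of_pos_left _ (by omega)).trans e9)
    (hp' ▸ e10) (by omega)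
  have gT : G ⊆ T := g1.trans (filter_subset _ _)
  have f1 := C gs G g4 gT g3
  have f2 := he ι g Y Z m F n E hn
    (fun z hz => ⟨(mem_filter.1 hz).2.2, (mem_filter.1 hz).2.1, M.top z (mem_filter.1 hz).1⟩)
    (fun z hz z' hz' e => M.inj z (mem_filter.1 hz).1 z' (mem_filter.1 hz').1 (e ▸ rfl))
    (fun y hy => (mem_filter.1 hy).2.1)
    (fun z hz i hi => by
      obtain ⟨b1, -, b2⟩ := mem_filter.1 hz
      have b3 := dg_sub hi
      exact mem_filter.2 ⟨down_ee M.down b1 i, by omega,
        nontop M (i := i) (by rwa [sub_add_ee hi])⟩)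
    (by omega) (by rw [mul_assoc]; exact e1) (by omega)
    (by
      have : 10 ^ 3 * n ≤ N * n := Nat.mul_le_mul_right _ hN0
      omega)
  rw [← hp'] at f2
  have f3 : (T \ G).card ≤ d + n * d := by
    rw [card_sdiff_of_subset gT]
    omega
  have f4 : n * Tn.card ≤ n * (Z.card + d) := Nat.mul_le_mul_left _ (by omega)
  have f5 : 2 * n * (T \ G).card ≤ 2 * n * (d + n * d) := Nat.mul_le_mul_left _ f3
  have f6 : 2 * n * (d + n * d) = 2 * (n * d) + 2 * (n ^ 2 * d) := by ring
  rw [mul_add] at f4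
  omega

theorem main (hc : CoreStmt) (hd : DomStmt) (he : DeadStmt) : MainStmt := by
  intro k0
  obtain ⟨k, hk⟩ : ∃ k, k = k0 + 3 := ⟨_, rfl⟩
  obtain ⟨R, hR⟩ : ∃ R, R = 8 * (3 + 24 * k * (10 ^ 4 * k ^ 2 * (5 * k ^ 2))) := ⟨_, rfl⟩
  have hD : ∀ n : Fin (k + 1), ∃ p0 : ℕ, 3 ≤ n.1 → ∀ (ι : Type) [Fintype ι] [DecidableEq ι]
      (g : ι → ℕ) (T : Finset (ι → ℕ)) (m F : ℕ), Md g T m F → p0 ≤ Fintype.card ι →
      (n + Fintype.card ι / R).choose (Fintype.card ι / R) ≤ (T.filter fun z => dg z = n).card →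
      (T.filter fun z => dg z = n + 1).card <
        (n + 1 + Fintype.card ι / R).choose (Fintype.card ι / R) →
      F + 1 ≤ (Fintype.card ι + 1) * ∑ x ∈ T, (F + m - wt g x) / m := fun n => by
    by_cases c : 3 ≤ n.1
    · have hn : n.1 ≤ k := Nat.le_of_lt_succ n.2
      obtain ⟨p0, h⟩ := dense hc hd he n R c (by rw [hR]; gcongr)
      exact ⟨p0, fun _ => h⟩
    · exact ⟨0, fun h => absurd h c⟩
  choose p0 hp0 using hD
  refine ⟨∑ n, p0 n + (R * (k + 1)) ^ (k + 1) * 2 ^ k + 100, fun ι _ _ g T m F M hp hm => ?_⟩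
  obtain ⟨p, hp'⟩ : ∃ p, p = Fintype.card ι := ⟨_, rfl⟩
  have hR0 : 24 ≤ R := by omega
  have hx : 24 * (p / R) ≤ p := (Nat.mul_le_mul_right _ hR0).trans (Nat.mul_div_le p R)
  by_cases c : (T.filter fun z => dg z = 3).card < (3 + p / R).choose (p / R)
  · refine wilf_ideal g T m F M.pos M.le M.down M.card M.inj M.top (Or.inr (c.trans_le ?_))
    rw [← Nat.choose_symm_add]
    exact Nat.choose_le_choose _ (by omega)
  have top : (T.filter fun z => dg z = k + 1).card < (k + 1 + p / R).choose (p / R) := by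
    by_contra c'
    have b1 := pow_le_choose p R (k + 1) (by omega)
    have b2 : (k + 1 + p / R).choose (p / R) ≤ (2 * p) ^ k := by
      refine (not_lt.1 c').trans ((card_filter_le _ _).trans (M.card.le.trans (hm.trans ?_)))
      exact (Nat.pow_le_pow_right (by omega) (by omega)).trans (Nat.pow_le_pow_left (by omega) _)
    have b3 := b1.trans (Nat.mul_le_mul_left _ b2)
    rw [mul_pow 2, ← mul_assoc, pow_succ'] at b3
    have := Nat.le_of_mul_le_mul_right b3 (by apply pow_pos; omega)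
    omega
  let Pr : ℕ → Prop := fun D => (D + p / R).choose (p / R) ≤ (T.filter fun z => dg z = D).card
  have f1 : 3 ≤ Nat.findGreatest Pr k := Nat.le_findGreatest (by omega) (not_lt.1 c)
  have f2 : Nat.findGreatest Pr k ≤ k := Nat.findGreatest_le k
  have f3 : Pr (Nat.findGreatest Pr k) := Nat.findGreatest_spec (m := 3) (by omega) (not_lt.1 c)
  have f4 : ¬ Pr (Nat.findGreatest Pr k + 1) := by
    rcases f2.eq_or_lt with e | e
    · rw [e]
      exact not_le.2 top
    · exact Nat.findGreatest_is_greatest (Nat.lt_succ_self _) e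
  have f5 := single_le_sum (f := p0) (fun _ _ => Nat.zero_le _)
    (mem_univ ⟨Nat.findGreatest Pr k, by omega⟩)
  subst hp'
  exact hp0 ⟨Nat.findGreatest Pr k, by omega⟩ f1 ι g T m F M (by omega) f3 (not_le.1 f4)

end Pool.Agent.MP_96f5a9_co.H59

end MrgPart3

-- ======== part 4: formerly Pool.Agent.MP_96f5a9_co.h59.Bridge
section MrgPart4

/-!
From the theorem for ideals to numerical semigroups.
-/

set_option autoImplicit false

namespace Pool.Agent.MP_96f5a9_co.H59

open Finset Function H51 H16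

open Classical in
/-- The order ideal of least factorizations of the Apery elements of a numerical semigroup. -/
lemma exists_md (S : AddSubmonoid ℕ) (F m : ℕ) (hF : ∀ x, F < x → x ∈ S) (hm0 : 0 < m)
    (hmS : m ∈ S) (hmin : ∀ x ∈ S, x ≠ 0 → m ≤ x) :
    ∃ (G : Finset ℕ) (g : G → ℕ) (T : Finset (G → ℕ)), (gens S).ncard = Fintype.card G + 1 ∧
      Md g T m F ∧ ∑ x ∈ T, (F + m - wt g x) / m ≤ ((range (F + 1)).filter (· ∈ S)).card := by
  have hfin := gens_finite S F hF
  have hmg : m ∈ gens S := by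
    refine ⟨hmS, hm0.ne', fun a ha b hb hab => ?_⟩
    by_contra hne
    push Not at hne
    have := hmin a ha hne.1
    have := hmin b hb hne.2
    omega
  let G : Finset ℕ := hfin.toFinset.erase m
  have hG : ∀ x, x ∈ G ↔ x ≠ m ∧ x ∈ gens S := fun x => by simp [G]
  have he : (gens S).ncard = Fintype.card G + 1 := by
    rw [Set.ncard_eq_toFinset_card _ hfin, Fintype.card_coe, card_erase_add_one]
    simpa using hmg
  let g : G → ℕ := fun i => i.1
  have hg : ∀ i, g i ∈ gens S := fun i => ((hG _).1 i.2).2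
  have hmul : ∀ k, k * m ∈ S := fun k => by
    rw [← smul_eq_mul]
    exact S.nsmul_mem hmS _
  have hwt : ∀ x, wt g x ∈ S := fun x =>
    S.sum_mem fun i _ => by
      rw [← smul_eq_mul]
      exact S.nsmul_mem (hg i).1 _
  have hrepr : ∀ s ∈ S, ∃ y t, s = wt g y + t * m := by
    intro s hs
    obtain ⟨l, hl, rfl⟩ := exists_fact S s hs
    clear hs
    induction l using Multiset.induction_on with
    | empty => exact ⟨0, 0, by simp [wt]⟩
    | cons a l ih =>
      obtain ⟨y, t, h⟩ := ih fun b hb => hl b (Multiset.mem_cons_of_mem hb)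
      have ha := hl a (Multiset.mem_cons_self _ _)
      rw [Multiset.sum_cons, h]
      by_cases ham : a = m
      · exact ⟨y, t + 1, by rw [ham]; ring⟩
      · refine ⟨y + ee ⟨a, (hG a).2 ⟨ham, ha⟩⟩, t, ?_⟩
        rw [wt_ee]
        simp only [g]
        ring
  obtain ⟨T, hT, hinj, hsurj, -⟩ := H16.exists_ideal g m hm0
  refine ⟨G, g, T, he, ⟨hm0, fun i => hmin _ (hg i).1 (hg i).2.1, hT, ?_, hinj, ?_, hsurj⟩, ?_⟩
  · have h1 : T.image (fun x => wt g x % m) = range m := by
      ext r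
      simp only [mem_image, mem_range]
      constructor
      · rintro ⟨x, -, rfl⟩
        exact Nat.mod_lt _ hm0
      · intro hr
        have h2 : F + 1 ≤ (F + 1) * m := Nat.le_mul_of_pos_right _ hm0
        obtain ⟨y, t, h⟩ := hrepr (r + (F + 1) * m) (hF _ (by omega))
        obtain ⟨x, hx, h3, -⟩ := hsurj y
        refine ⟨x, hx, ?_⟩
        have h4 := congrArg (· % m) h
        simp only [Nat.add_mul_mod_self_right, Nat.mod_eq_of_lt hr] at h4
        rw [h4]
        exact h3
    rw [← card_image_of_injOn (f := fun x => wt g x % m) fun x hx y hy h => hinj x hx y hy h, h1,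
      card_range]
  · intro x hx
    by_contra hne
    obtain ⟨y, t, h⟩ := hrepr (wt g x - m) (hF _ (by omega))
    obtain ⟨z, hz, h3, h4⟩ := hsurj y
    have h5 : wt g x = wt g y + (t + 1) * m := by rw [add_mul]; omega
    have h6 : wt g z ≡ wt g x [MOD m] := by
      rw [h5]
      unfold Nat.ModEq at h3 ⊢
      rw [Nat.add_mul_mod_self_right]
      exact h3
    have h7 := hinj z hz x hx h6
    rw [h7] at h4
    omega
  · have h1 : ∑ x ∈ T, (F + m - wt g x) / m =
        (T.sigma fun x => range ((F + m - wt g x) / m)).card := by simp [card_sigma]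
    rw [h1]
    refine card_le_card_of_injOn (fun p => wt g p.1 + p.2 * m) ?_ ?_
    · rintro ⟨x, t⟩ hp
      simp only [coe_sigma, Set.mem_sigma_iff, mem_coe, mem_range] at hp
      simp only [coe_filter, mem_range, Set.mem_ofPred_eq]
      refine ⟨?_, S.add_mem (hwt x) (hmul _)⟩
      have h2 : (t + 1) * m ≤ F + m - wt g x := (Nat.le_div_iff_mul_le hm0).1 hp.2
      rw [add_mul] at h2
      omega
    · rintro ⟨x, t⟩ hp ⟨y, t'⟩ hp' h
      simp only [coe_sigma, Set.mem_sigma_iff, mem_coe, mem_range] at hp hp'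
      simp only at h
      have h2 : x = y := by
        refine hinj x hp.1 y hp'.1 ?_
        have h3 := congrArg (· % m) h
        simp only [Nat.add_mul_mod_self_right] at h3
        exact h3
      subst h2
      have h3 : t = t' := Nat.eq_of_mul_eq_mul_right hm0 (by omega)
      subst h3
      rfl

/-- There are at most `(p + 1) ^ q` exponent vectors of degree at most `q` in `p` variables. -/
lemma card_le_pow {ι : Type} [Fintype ι] [DecidableEq ι] (q : ℕ) (T : Finset (ι → ℕ))
    (h : ∀ x ∈ T, dg x ≤ q) : T.card ≤ (Fintype.card ι + 1) ^ q := by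
  have h1 : ∀ (n : ℕ) (x : ι → ℕ), dg x ≤ n →
      ∃ f : Fin n → Option ι, ∑ j, (f j).elim 0 ee = x := by
    intro n
    induction n with
    | zero =>
      intro x hx
      exact ⟨fun _ => none, by
        rw [univ_eq_empty, sum_empty]
        exact (funext fun l => sum_eq_zero_iff.1 (Nat.le_zero.1 hx) l (mem_univ l)).symm⟩
    | succ n ih =>
      intro x hx
      by_cases c : ∃ i, 0 < x i
      · obtain ⟨i, hi⟩ := c
        have := dg_sub hi
        obtain ⟨f, hf⟩ := ih (x - ee i) (by omega)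
        refine ⟨Fin.cons (some i) f, ?_⟩
        rw [Fin.sum_univ_succ]
        simp only [Fin.cons_zero, Fin.cons_succ, Option.elim_some]
        rw [hf, add_comm, sub_add_ee hi]
      · push Not at c
        refine ⟨fun _ => none, ?_⟩
        simp only [Option.elim_none, sum_const_zero]
        exact funext fun l => (Nat.le_zero.1 (c l)).symm
  calc T.card ≤ (univ.image fun f : Fin q → Option ι => ∑ j, (f j).elim 0 ee).card :=
        card_le_card fun x hx => by
          obtain ⟨f, hf⟩ := h1 q x (h x hx)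
          exact mem_image.2 ⟨f, mem_univ _, hf⟩
    _ ≤ _ := card_image_le.trans (by simp)

open Classical in
/-- The multiplicity is at most the embedding dimension to the power of the depth. -/
lemma mult_le_pow (S : AddSubmonoid ℕ) (F m q : ℕ) (hF : ∀ x, F < x → x ∈ S) (hm0 : 0 < m)
    (hmS : m ∈ S) (hmin : ∀ x ∈ S, x ≠ 0 → m ≤ x) (hq : F + 1 ≤ q * m) :
    m ≤ (gens S).ncard ^ q := by
  obtain ⟨G, g, T, h1, h2, -⟩ := exists_md S F m hF hm0 hmS hmin
  rw [h1, ← h2.card]
  refine card_le_pow q T fun t ht' => Nat.le_of_lt_succ (Nat.lt_of_mul_lt_mul_right (a := m) ?_)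
  have a1 : dg t * m ≤ wt g t := by
    rw [dg, sum_mul]
    exact sum_le_sum fun i _ => Nat.mul_le_mul_left _ (h2.le i)
  have a2 := h2.top t ht'
  rw [Nat.succ_mul]
  omega

open Classical in
/-- Wilf's inequality for multiplicity polynomial in a large embedding dimension. -/
theorem wilf_poly (h : MainStmt) (k : ℕ) : ∃ e0 : ℕ, ∀ (S : AddSubmonoid ℕ) (F m : ℕ),
    (∀ x, F < x → x ∈ S) → 0 < m → m ∈ S → (∀ x ∈ S, x ≠ 0 → m ≤ x) → e0 ≤ (gens S).ncard →
    m ≤ (gens S).ncard ^ k →
    F + 1 ≤ (gens S).ncard * ((range (F + 1)).filter (· ∈ S)).card := by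
  obtain ⟨p0, hp⟩ := h k
  refine ⟨p0 + 1, fun S F m hF hm0 hmS hmin he hk => ?_⟩
  obtain ⟨G, g, T, h1, h2, h3⟩ := exists_md S F m hF hm0 hmS hmin
  rw [h1] at he hk ⊢
  exact (hp G g T m F h2 (by omega) hk).trans (Nat.mul_le_mul_left _ h3)

open Classical in
/-- Wilf's inequality for polynomial multiplicity and large Frobenius number. -/
theorem wilf_poly_large (h : MainStmt) (k : ℕ) : ∃ B : ℕ, ∀ (S : AddSubmonoid ℕ) (F m : ℕ),
    (∀ x, F < x → x ∈ S) → 0 < m → m ∈ S → (∀ x ∈ S, x ≠ 0 → m ≤ x) → B ≤ F →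
    m ≤ (gens S).ncard ^ k →
    F + 1 ≤ (gens S).ncard * ((range (F + 1)).filter (· ∈ S)).card := by
  obtain ⟨e0, he⟩ := wilf_poly h k
  refine ⟨2 ^ 36 * e0 ^ 5 * e0 ^ k, fun S F m hF hm0 hmS hmin hB hk => ?_⟩
  rcases le_total e0 (gens S).ncard with c | c
  · exact he S F m hF hm0 hmS hmin c hk
  refine wilf_large S F m hF hm0 hmS hmin (Or.inl (le_trans ?_ hB))
  exact Nat.mul_le_mul (Nat.mul_le_mul_left _ (Nat.pow_le_pow_left c _))
    (hk.trans (Nat.pow_le_pow_left c _))

open Classical in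
/-- Wilf's inequality for bounded depth and large Frobenius number. -/
theorem wilf_depth (h : MainStmt) (q : ℕ) : ∃ B : ℕ, ∀ (S : AddSubmonoid ℕ) (F m : ℕ),
    (∀ x, F < x → x ∈ S) → 0 < m → m ∈ S → (∀ x ∈ S, x ≠ 0 → m ≤ x) → B ≤ F →
    F + 1 ≤ q * m →
    F + 1 ≤ (gens S).ncard * ((range (F + 1)).filter (· ∈ S)).card := by
  obtain ⟨B, hB⟩ := wilf_poly_large h q
  exact ⟨B, fun S F m hF hm0 hmS hmin h1 h2 =>
    hB S F m hF hm0 hmS hmin h1 (mult_le_pow S F m q hF hm0 hmS hmin h2)⟩

/-- Finitely many submonoids contain everything from a given point on. -/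
lemma finite_small (B : ℕ) : {S : AddSubmonoid ℕ | ∀ x, B ≤ x → x ∈ S}.Finite := by
  refine Set.Finite.of_injOn (f := fun S : AddSubmonoid ℕ => (S : Set ℕ) ∩ Set.Iio B)
    (t := {A | A ⊆ Set.Iio B}) (fun S _ => Set.inter_subset_right) (fun S hS S' hS' e => ?_)
    (Set.finite_Iio B).finite_subsets
  ext x
  rcases le_or_gt B x with c | c
  · exact iff_of_true (hS x c) (hS' x c)
  · have := Set.ext_iff.1 e x
    simpa [c] using this

open Classical in
lemma count_eq (S : AddSubmonoid ℕ) (F : ℕ) (hF : F ∉ S) (hF' : ∀ h, h ∉ S → h ≤ F) :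
    Set.ncard {x : ℕ | x ∈ S ∧ ∃ h : ℕ, h ∉ S ∧ x ≤ h} =
      ((range (F + 1)).filter (· ∈ S)).card := by
  rw [← Set.ncard_coe_finset]
  congr 1
  ext x
  simp only [Set.mem_ofPred_eq, coe_filter, mem_range]
  constructor
  · rintro ⟨h1, h, h2, h3⟩
    exact ⟨by have := hF' h h2; omega, h1⟩
  · rintro ⟨h1, h2⟩
    exact ⟨h2, F, hF, by omega⟩

/-- For each `k` only finitely many numerical semigroups with `m ≤ e ^ k` can fail Wilf's
inequality. -/
theorem poly_finite (h : MainStmt) (k : ℕ) :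
    {S : AddSubmonoid ℕ | ∃ F m e n : ℕ, F ∉ S ∧ (∀ h, h ∉ S → h ≤ F) ∧
      IsLeast {x | x ∈ S ∧ x ≠ 0} m ∧
      e = Set.ncard {x : ℕ | x ∈ S ∧ x ≠ 0 ∧ ∀ a ∈ S, ∀ b ∈ S, a + b = x → a = 0 ∨ b = 0} ∧
      n = Set.ncard {x : ℕ | x ∈ S ∧ ∃ h : ℕ, h ∉ S ∧ x ≤ h} ∧
      m ≤ e ^ k ∧ e * n < F + 1}.Finite := by
  obtain ⟨B, hB⟩ := wilf_poly_large h k
  refine (finite_small B).subset ?_
  rintro S ⟨F, m, e, n, hF, hF', hm, rfl, rfl, hk, hW⟩ x hx
  have hb : ∀ x, F < x → x ∈ S := fun x hx => by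
    by_contra h
    exact absurd (hF' x h) (by omega)
  refine hb x (lt_of_lt_of_le (not_le.1 fun c => ?_) hx)
  rw [count_eq S F hF hF'] at hW
  exact absurd (hB S F m hb (Nat.pos_of_ne_zero hm.1.2) hm.1.1 (fun x hx h0 => hm.2 ⟨hx, h0⟩) c hk)
    (not_le.2 hW)

end Pool.Agent.MP_96f5a9_co.H59

end MrgPart4

-- marker of a merged file
example : 731051 + 25534 = 731051 + 25534 := rfl
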